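import Pool.Agent.Q62.CC.Stm

/-!
# Project CC: the flat family (S_FAM)
-/

set_option autoImplicit false
set_option linter.all false

open Set Filter Topology MeasureTheory
open scoped ENNReal ContDiff

namespace Pool.Agent.Q162.CC.Fam

open Pool.Agent.Q62.CC

lemma fac_bound (a b n k : ℕ) (hab : a + b = n) (hn : 2 * k ≤ n) :
    1 / ((a.factorial : ℝ) * (b.factorial : ℝ)) ≤ 2 ^ n / ((2 * k).factorial : ℝ) := by
  subst hab
  have h1 := Nat.add_choose_mul_factorial_mul_factorial a b
  have h2 := Nat.choose_le_two_pow (a + b) b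
  have h3 : ((2 * k).factorial) ≤ (a + b).factorial := Nat.factorial_le hn
  have h4 : ((2 * k).factorial) ≤ 2 ^ (a + b) * (a.factorial * b.factorial) := by
    calc _ ≤ (a + b).factorial := h3
      _ = (a + b).choose b * (a.factorial * b.factorial) := by rw [← h1]; ring
      _ ≤ _ := Nat.mul_le_mul_right _ h2
  have h5 : (((2 * k).factorial : ℕ) : ℝ) ≤ 2 ^ (a + b) * ((a.factorial : ℝ) * (b.factorial : ℝ)) := by
    exact_mod_cast h4
  have ha : (0 : ℝ) < a.factorial := by exact_mod_cast a.factorial_pos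
  have hb : (0 : ℝ) < b.factorial := by exact_mod_cast b.factorial_pos
  have hk : (0 : ℝ) < (2 * k).factorial := by exact_mod_cast (2 * k).factorial_pos
  rw [div_le_div_iff₀ (mul_pos ha hb) hk, one_mul]
  exact h5

lemma term (p q M L : ℝ) (hM : 0 < M) (hL : 0 < L) (i j a b k n : ℕ)
    (hp : |p| ≤ M ^ i * L ^ a / (a.factorial : ℝ)) (hq : |q| ≤ M ^ j * L ^ b / (b.factorial : ℝ))
    (hij : i + j = k + 1) (hab : a + b = n) (hn : 2 * k ≤ n) :
    |p * q| ≤ M ^ (k + 1) * L ^ n * (2 ^ n / ((2 * k).factorial : ℝ)) := by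
  have ha : (0 : ℝ) < a.factorial := by exact_mod_cast a.factorial_pos
  have hb : (0 : ℝ) < b.factorial := by exact_mod_cast b.factorial_pos
  rw [abs_mul]
  calc |p| * |q| ≤ (M ^ i * L ^ a / (a.factorial : ℝ)) * (M ^ j * L ^ b / (b.factorial : ℝ)) :=
        mul_le_mul hp hq (abs_nonneg _) (by positivity)
    _ = M ^ (k + 1) * L ^ n * (1 / ((a.factorial : ℝ) * (b.factorial : ℝ))) := by
        rw [← hij, ← hab, pow_add, pow_add]
        field_simp
    _ ≤ _ := mul_le_mul_of_nonneg_left (fac_bound a b n k hab hn) (by positivity)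

lemma sf_alpha (m : ℝ → ℝ) (α : ℝ) (j : ℕ) : sf m α j α = 0 := by
  cases j with
  | zero => simp [sf]
  | succ j => simp [sf]

lemma cf_alpha (m : ℝ → ℝ) (α : ℝ) (j : ℕ) : cf m α (j + 1) α = 0 := by
  simp [cf]

lemma succ_le_two_pow (k : ℕ) : ((k : ℝ) + 1) ≤ 2 ^ k := by
  have : k + 1 ≤ 2 ^ k := Nat.lt_two_pow_self
  exact_mod_cast this

theorem t_FAM (hp1 : S_DER) (hp2 : S_BND) : S_FAM := by
  intro m x₀ x₁ α β M c hW
  have hα : α ∈ Ioo x₀ x₁ := ⟨hW.h0, hW.hab.trans hW.h1⟩
  have hβ : β ∈ Ioo x₀ x₁ := ⟨hW.h0.trans hW.hab, hW.h1⟩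
  have hM : 0 < M := lt_of_lt_of_le (hW.pos α hα) (hW.le α hα)
  set L := x₁ - x₀ with hLd
  have hL : 0 < L := by
    have := hα.1.trans hα.2
    simp only [hLd]; linarith
  have habs : ∀ x ∈ Ioo x₀ x₁, |x - α| ≤ L := by
    intro x hx
    rw [abs_le]
    simp only [hLd]
    constructor <;> linarith [hx.1, hx.2, hα.1, hα.2]
  have hder := fun k x hx => hp1 m x₀ x₁ α β M c hW k x hx
  -- bounds with L
  have bcf : ∀ k x, x ∈ Ioo x₀ x₁ → |cf m α k x| ≤ M ^ k * L ^ (2 * k) / ((2 * k).factorial : ℝ) := by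
    intro k x hx
    refine le_trans (hp2 m x₀ x₁ α β M c hW k x hx).1 ?_
    have := habs x hx
    gcongr
  have bsf : ∀ k x, x ∈ Ioo x₀ x₁ →
      |sf m α k x| ≤ M ^ k * L ^ (2 * k + 1) / ((2 * k + 1).factorial : ℝ) := by
    intro k x hx
    refine le_trans (hp2 m x₀ x₁ α β M c hW k x hx).2.1 ?_
    have := habs x hx
    gcongr
  have bcd : ∀ k x, x ∈ Ioo x₀ x₁ →
      |cd m α (k + 1) x| ≤ M ^ (k + 1) * L ^ (2 * k + 1) / ((2 * k + 1).factorial : ℝ) := by
    intro k x hx
    refine le_trans (hp2 m x₀ x₁ α β M c hW k x hx).2.2.1 ?_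
    have := habs x hx
    gcongr
  have bsd : ∀ k x, x ∈ Ioo x₀ x₁ → |sd m α k x| ≤ M ^ k * L ^ (2 * k) / ((2 * k).factorial : ℝ) := by
    intro k x hx
    refine le_trans (hp2 m x₀ x₁ α β M c hW k x hx).2.2.2 ?_
    have := habs x hx
    gcongr
  refine ⟨16 * M * L ^ 3 + 8 * M * L ^ 2 + L, 8 * M * L ^ 2, ?_⟩
  have hfac : ∀ k : ℕ, (0 : ℝ) < ((2 * k).factorial : ℝ) := fun k => by
    exact_mod_cast (2 * k).factorial_pos
  refine ⟨by positivity, by positivity, ?_, ?_, ?_, ?_, ?_, ?_, ?_, ?_⟩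
  · -- dv
    intro k x hx
    unfold vv vd
    refine HasDerivAt.fun_sum fun j _ => ?_
    exact ((hder j x hx).2.1.const_mul _).sub ((hder (j + 1) x hx).1.const_mul _)
  · -- dw0
    intro x hx
    have e : vd m α β 0 = fun x => cf m α 1 β * sd m α 0 x - sf m α 0 β * cd m α 1 x := by
      funext y
      simp [vd]
    rw [e]
    have h1 : HasDerivAt (fun x => cf m α 1 β * sd m α 0 x - sf m α 0 β * cd m α 1 x)
        (cf m α 1 β * 0 - sf m α 0 β * (m x * cf m α 0 x)) x :=
      ((hder 0 x hx).2.2.2.2.2.const_mul (cf m α 1 β)).sub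
        ((hder 0 x hx).2.2.1.const_mul (sf m α 0 β))
    refine h1.congr_deriv ?_
    simp only [kq, cf]
    ring
  · -- dw
    intro k x hx
    have e : vd m α β (k + 1) = fun x => (∑ j ∈ Finset.range (k + 1),
        (cf m α (k - j + 1) β * sd m α (j + 1) x - sf m α (k - j) β * cd m α (j + 1 + 1) x)) +
        (cf m α (k + 1 + 1) β * sd m α 0 x - sf m α (k + 1) β * cd m α (0 + 1) x) := by
      funext y
      unfold vd
      rw [Finset.sum_range_succ']
      simp only [Nat.add_sub_add_right, Nat.sub_zero]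
    rw [e]
    have h1 : HasDerivAt (fun x => (∑ j ∈ Finset.range (k + 1),
        (cf m α (k - j + 1) β * sd m α (j + 1) x - sf m α (k - j) β * cd m α (j + 1 + 1) x)) +
        (cf m α (k + 1 + 1) β * sd m α 0 x - sf m α (k + 1) β * cd m α (0 + 1) x))
        ((∑ j ∈ Finset.range (k + 1), (cf m α (k - j + 1) β * (m x * sf m α j x) -
          sf m α (k - j) β * (m x * cf m α (j + 1) x))) +
          (cf m α (k + 1 + 1) β * 0 - sf m α (k + 1) β * (m x * cf m α 0 x))) x := by
      refine HasDerivAt.add (HasDerivAt.fun_sum fun j _ => ?_) ?_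
      · exact ((hder j x hx).2.2.2.1.const_mul _).sub ((hder (j + 1) x hx).2.2.1.const_mul _)
      · exact ((hder 0 x hx).2.2.2.2.2.const_mul _).sub ((hder 0 x hx).2.2.1.const_mul _)
    refine h1.congr_deriv ?_
    have e2 : (∑ j ∈ Finset.range (k + 1), (cf m α (k - j + 1) β * (m x * sf m α j x) -
          sf m α (k - j) β * (m x * cf m α (j + 1) x))) = m x * vv m α β k x := by
      unfold vv
      rw [Finset.mul_sum]
      exact Finset.sum_congr rfl fun j _ => by ring
    rw [e2]
    simp only [kq, cf]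
    ring
  · -- va
    intro k
    unfold vv
    refine Finset.sum_eq_zero fun j _ => ?_
    rw [sf_alpha, cf_alpha]
    ring
  · -- vb
    intro k
    unfold vv
    rw [Finset.sum_sub_distrib, sub_eq_zero]
    rw [← Finset.sum_range_reflect (fun j => sf m α (k - j) β * cf m α (j + 1) β) (k + 1)]
    refine Finset.sum_congr rfl fun j hj => ?_
    have hj' : j ≤ k := Nat.lt_succ_iff.mp (Finset.mem_range.mp hj)
    have e1 : k + 1 - 1 - j = k - j := by omega
    have e2 : k - (k - j) = j := by omega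
    rw [e1, e2]
    ring
  · -- bv
    intro k x hx
    have hsum : |vv m α β k x| ≤ ∑ j ∈ Finset.range (k + 1),
        2 * (M ^ (k + 1) * L ^ (2 * k + 3) * (2 ^ (2 * k + 3) / ((2 * k).factorial : ℝ))) := by
      unfold vv
      refine le_trans (Finset.abs_sum_le_sum_abs _ _) (Finset.sum_le_sum fun j hj => ?_)
      have hj' : j ≤ k := Nat.lt_succ_iff.mp (Finset.mem_range.mp hj)
      refine le_trans (abs_sub _ _) ?_
      have t1 := term _ _ M L hM hL _ _ _ _ k (2 * k + 3) (bcf (k - j + 1) β hβ) (bsf j x hx)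
        (by omega) (by omega) (by omega)
      have t2 := term _ _ M L hM hL _ _ _ _ k (2 * k + 3) (bsf (k - j) β hβ) (bcf (j + 1) x hx)
        (by omega) (by omega) (by omega)
      linarith
    refine hsum.trans ?_
    rw [Finset.sum_const, Finset.card_range, nsmul_eq_mul]
    have hk := succ_le_two_pow k
    have hf := hfac k
    calc ((k + 1 : ℕ) : ℝ) * (2 * (M ^ (k + 1) * L ^ (2 * k + 3) * (2 ^ (2 * k + 3) / ((2 * k).factorial : ℝ))))
        ≤ 2 ^ k * (2 * (M ^ (k + 1) * L ^ (2 * k + 3) * (2 ^ (2 * k + 3) / ((2 * k).factorial : ℝ)))) := by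
          refine mul_le_mul_of_nonneg_right ?_ (by positivity)
          push_cast
          exact hk
      _ = 16 * M * L ^ 3 * (8 * M * L ^ 2) ^ k / ((2 * k).factorial : ℝ) := by
          rw [mul_pow, mul_pow, ← pow_mul]
          have e8 : (8 : ℝ) ^ k = 2 ^ k * 2 ^ (2 * k) := by
            rw [← pow_add, show (8 : ℝ) = 2 ^ 3 by norm_num, ← pow_mul]
            congr 1
            ring
          rw [e8, pow_add, pow_add, pow_add]
          ring
      _ ≤ _ := by
          rw [div_le_div_iff_of_pos_right hf]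
          refine mul_le_mul_of_nonneg_right ?_ (by positivity)
          have : 0 ≤ 8 * M * L ^ 2 + L := by positivity
          linarith
  · -- bw
    intro k x hx
    have hsum : |vd m α β k x| ≤ ∑ j ∈ Finset.range (k + 1),
        2 * (M ^ (k + 1) * L ^ (2 * k + 2) * (2 ^ (2 * k + 2) / ((2 * k).factorial : ℝ))) := by
      unfold vd
      refine le_trans (Finset.abs_sum_le_sum_abs _ _) (Finset.sum_le_sum fun j hj => ?_)
      have hj' : j ≤ k := Nat.lt_succ_iff.mp (Finset.mem_range.mp hj)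
      refine le_trans (abs_sub _ _) ?_
      have t1 := term _ _ M L hM hL _ _ _ _ k (2 * k + 2) (bcf (k - j + 1) β hβ) (bsd j x hx)
        (by omega) (by omega) (by omega)
      have t2 := term _ _ M L hM hL _ _ _ _ k (2 * k + 2) (bsf (k - j) β hβ) (bcd j x hx)
        (by omega) (by omega) (by omega)
      linarith
    refine hsum.trans ?_
    rw [Finset.sum_const, Finset.card_range, nsmul_eq_mul]
    have hk := succ_le_two_pow k
    have hf := hfac k
    calc ((k + 1 : ℕ) : ℝ) * (2 * (M ^ (k + 1) * L ^ (2 * k + 2) * (2 ^ (2 * k + 2) / ((2 * k).factorial : ℝ))))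
        ≤ 2 ^ k * (2 * (M ^ (k + 1) * L ^ (2 * k + 2) * (2 ^ (2 * k + 2) / ((2 * k).factorial : ℝ)))) := by
          refine mul_le_mul_of_nonneg_right ?_ (by positivity)
          push_cast
          exact hk
      _ = 8 * M * L ^ 2 * (8 * M * L ^ 2) ^ k / ((2 * k).factorial : ℝ) := by
          rw [mul_pow, mul_pow, ← pow_mul]
          have e8 : (8 : ℝ) ^ k = 2 ^ k * 2 ^ (2 * k) := by
            rw [← pow_add, show (8 : ℝ) = 2 ^ 3 by norm_num, ← pow_mul]
            congr 1
            ring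
          rw [e8, pow_add, pow_add, pow_add]
          ring
      _ ≤ _ := by
          rw [div_le_div_iff_of_pos_right hf]
          refine mul_le_mul_of_nonneg_right ?_ (by positivity)
          have : 0 ≤ 16 * M * L ^ 3 + L := by positivity
          linarith
  · -- bk
    intro k
    have hf := hfac k
    have hf1 : (0 : ℝ) < ((2 * k + 1).factorial : ℝ) := by exact_mod_cast (2 * k + 1).factorial_pos
    have hle : ((2 * k).factorial : ℝ) ≤ ((2 * k + 1).factorial : ℝ) := by
      exact_mod_cast Nat.factorial_le (Nat.le_succ (2 * k))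
    refine le_trans (bsf k β hβ) ?_
    calc M ^ k * L ^ (2 * k + 1) / ((2 * k + 1).factorial : ℝ)
        ≤ M ^ k * L ^ (2 * k + 1) / ((2 * k).factorial : ℝ) :=
          div_le_div_of_nonneg_left (by positivity) hf hle
      _ = L * (M * L ^ 2) ^ k / ((2 * k).factorial : ℝ) := by
          rw [mul_pow, ← pow_mul, pow_succ]
          ring
      _ ≤ _ := by
          rw [div_le_div_iff_of_pos_right hf]
          refine mul_le_mul ?_ ?_ (by positivity) (by positivity)
          · have : 0 ≤ 16 * M * L ^ 3 + 8 * M * L ^ 2 := by positivity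
            linarith
          · refine pow_le_pow_left₀ (by positivity) ?_ k
            have : 0 ≤ M * L ^ 2 := by positivity
            nlinarith

end Pool.Agent.Q162.CC.Fam
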