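import Pool.Agent.Q62.CC.Stm

/-!
# Project CC: derivatives of the series with jets (S_SRA)
-/

set_option autoImplicit false
set_option linter.all false

open Set Filter Topology MeasureTheory
open scoped ENNReal ContDiff

namespace Pool.Agent.Q162.CC.Sra

open Pool.Agent.Q62.CC
open Pool.Agent.Q61.NC (IsJet Bd mulJ Good sh Sp pd StopsIn norm_comb_le)

lemma gen {Z : ℕ → ℝ → ℝ} (hZ : IsJet Z) (a a' : ℕ → ℝ → ℝ) (u₁ u₂ : ℕ → ℝ) {s₀ x₀ x₁ : ℝ}
    (hs₀ : 0 < s₀) (hu₁ : Summable u₁) (hu₂ : Summable u₂)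
    (ha : ∀ k, ∀ x ∈ Ioo x₀ x₁, HasDerivAt (a k) (a' k x) x)
    (b1 : ∀ k s, s₀ ≤ s → ∀ x ∈ Ioo x₀ x₁, |Z (k + 1) s * a k x| ≤ u₁ k)
    (b2 : ∀ k s, s₀ ≤ s → ∀ x ∈ Ioo x₀ x₁, |Z k s * a' k x| ≤ u₂ k)
    {t x : ℝ} (ht : s₀ < t) (hx : x ∈ Ioo x₀ x₁) (b0 : Summable fun k => Z k t * a k x) :
    HasFDerivAt (fun z : ℝ × ℝ => ∑' k, Z k z.1 * a k z.2)
      ((∑' k, Z (k + 1) t * a k x) • ContinuousLinearMap.fst ℝ ℝ ℝ +
        (∑' k, Z k t * a' k x) • ContinuousLinearMap.snd ℝ ℝ ℝ) (t, x) := by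
  have ho : IsOpen (Ioi s₀ ×ˢ Ioo x₀ x₁ : Set (ℝ × ℝ)) := isOpen_Ioi.prod isOpen_Ioo
  have hc : IsPreconnected (Ioi s₀ ×ˢ Ioo x₀ x₁ : Set (ℝ × ℝ)) :=
    (convex_Ioi s₀).isPreconnected.prod (convex_Ioo _ _).isPreconnected
  have hmem : (t, x) ∈ (Ioi s₀ ×ˢ Ioo x₀ x₁ : Set (ℝ × ℝ)) := ⟨ht, hx⟩
  have key := hasFDerivAt_tsum_of_isPreconnected
    (f := fun (k : ℕ) (q : ℝ × ℝ) => Z k q.1 * a k q.2)
    (f' := fun (k : ℕ) (q : ℝ × ℝ) =>
      (Z (k + 1) q.1 * a k q.2) • ContinuousLinearMap.fst ℝ ℝ ℝ +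
        (Z k q.1 * a' k q.2) • ContinuousLinearMap.snd ℝ ℝ ℝ)
    (u := fun k : ℕ => u₁ k + u₂ k) (x₀ := (t, x)) (x := (t, x))
    (hu₁.add hu₂) ho hc ?_ ?_ hmem b0 hmem
  · have s1 : Summable fun k => Z (k + 1) t * a k x :=
      Summable.of_norm_bounded hu₁ fun k => b1 k t ht.le x hx
    have s2 : Summable fun k => Z k t * a' k x :=
      Summable.of_norm_bounded hu₂ fun k => b2 k t ht.le x hx
    have e1 : (∑' k : ℕ, ((Z (k + 1) t * a k x) • ContinuousLinearMap.fst ℝ ℝ ℝ +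
        (Z k t * a' k x) • ContinuousLinearMap.snd ℝ ℝ ℝ)) =
        (∑' k, Z (k + 1) t * a k x) • ContinuousLinearMap.fst ℝ ℝ ℝ +
        (∑' k, Z k t * a' k x) • ContinuousLinearMap.snd ℝ ℝ ℝ := by
      have s1' := s1.smul_const (ContinuousLinearMap.fst ℝ ℝ ℝ)
      have s2' := s2.smul_const (ContinuousLinearMap.snd ℝ ℝ ℝ)
      have e2 := s1'.tsum_add s2'
      rw [s1.tsum_smul_const, s2.tsum_smul_const] at e2
      exact e2
    rw [e1] at key
    exact key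
  · rintro k ⟨s, v⟩ ⟨hs, hv⟩
    have hs0 : 0 < s := hs₀.trans hs
    have h1 : HasFDerivAt (fun q : ℝ × ℝ => Z k q.1)
        (Z (k + 1) s • ContinuousLinearMap.fst ℝ ℝ ℝ) (s, v) :=
      (hZ k s hs0).comp_hasFDerivAt (s, v) (hasFDerivAt_fst (p := (s, v)))
    have h2 : HasFDerivAt (fun q : ℝ × ℝ => a k q.2)
        (a' k v • ContinuousLinearMap.snd ℝ ℝ ℝ) (s, v) := by
      have h0 : HasDerivAt (a k) (a' k v) (Prod.snd ((s, v) : ℝ × ℝ)) := ha k v hv
      exact h0.comp_hasFDerivAt ((s, v) : ℝ × ℝ)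
        (hasFDerivAt_snd (𝕜 := ℝ) (E := ℝ) (F := ℝ) (p := (s, v)))
    have h3 : HasFDerivAt (fun q : ℝ × ℝ => Z k q.1 * a k q.2)
        (Z k s • (a' k v • ContinuousLinearMap.snd ℝ ℝ ℝ) +
          (a k v) • (Z (k + 1) s • ContinuousLinearMap.fst ℝ ℝ ℝ)) (s, v) := h1.mul h2
    rw [smul_smul, smul_smul, add_comm, mul_comm (a k v)] at h3
    exact h3
  · rintro k ⟨s, v⟩ ⟨hs, hv⟩
    refine (norm_comb_le _ _).trans (add_le_add ?_ ?_)
    · exact b1 k s (le_of_lt hs) v hv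
    · exact b2 k s (le_of_lt hs) v hv

theorem t_SRA : S_SRA := by
  intro m x₀ x₁ α β M v w κ D K hm hF Z hZ t x ht hx
  have hK := hF.hK
  have hD := hF.hD
  have hK2 : (√K) ^ 2 = K := Real.sq_sqrt hK.le
  have hsK : 0 < √K := Real.sqrt_pos.mpr hK
  have ht₁ : 0 < t / 2 := by linarith
  obtain ⟨C, r, hC, hr, hrY, hb⟩ := hZ.2 (t / 2) ht₁
  obtain ⟨C', r', hC', hr', hrY', hb'⟩ := (hZ.shift hsK).2 (t / 2) ht₁
  rw [hK2] at hrY hrY'
  have hM : 0 ≤ M := le_trans (abs_nonneg _) (hm x hx)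
  have hg : Summable fun k : ℕ => (r * K) ^ k := summable_geometric_of_lt_one (by positivity) hrY
  have hg' : Summable fun k : ℕ => (r' * K) ^ k := summable_geometric_of_lt_one (by positivity) hrY'
  have hfac : ∀ k : ℕ, (0 : ℝ) < ((2 * k).factorial : ℝ) := fun k => by
    exact_mod_cast (2 * k).factorial_pos
  -- generic bound
  have gb : ∀ (C r : ℝ) (k : ℕ) (z y : ℝ), 0 ≤ C → 0 < r → |z| ≤ C * r ^ k * ((2 * k).factorial : ℝ) →
      |y| ≤ D * K ^ k / ((2 * k).factorial : ℝ) → |z * y| ≤ C * D * (r * K) ^ k := by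
    intro C r k z y hC hr hz hy
    have hf := hfac k
    rw [abs_mul]
    calc |z| * |y| ≤ (C * r ^ k * ((2 * k).factorial : ℝ)) * (D * K ^ k / ((2 * k).factorial : ℝ)) :=
          mul_le_mul hz hy (abs_nonneg _) (by positivity)
      _ = C * D * (r * K) ^ k := by
          rw [mul_pow]
          field_simp
  have hb2 : ∀ k s, t / 2 ≤ s → |Z (k + 1) s| ≤ C' * r' ^ k * ((2 * k).factorial : ℝ) :=
    fun k s hs => hb' k s hs
  have htt : t / 2 < t := by linarith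
  -- the functions p
  set p : ℕ → ℝ → ℝ := fun k => Nat.casesOn k (fun _ => 0) (fun j => v j) with hp
  have p0 : ∀ y, p 0 y = 0 := fun y => rfl
  have ps : ∀ k y, p (k + 1) y = v k y := fun k y => rfl
  set P : ℕ → ℝ := fun k => Nat.casesOn k 0 (fun j => C' * D * (r' * K) ^ j) with hP
  have hPs : Summable P := by
    rw [← summable_nat_add_iff 1]
    exact hg'.mul_left (C' * D)
  have hPb : ∀ k s, t / 2 ≤ s → ∀ y ∈ Ioo x₀ x₁, |Z k s * p k y| ≤ P k := by
    intro k s hs y hy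
    cases k with
    | zero => simp [p0, hP]
    | succ k =>
      rw [ps]
      exact gb C' r' k _ _ hC' hr' (hb2 k s hs) (hF.bv k y hy)
  have hκb : ∀ k s, t / 2 ≤ s → |Z k s * κ k| ≤ C * D * (r * K) ^ k := fun k s hs =>
    gb C r k _ _ hC hr (hb k s hs) (hF.bk k)
  have sκ : Summable fun k => Z k t * κ k :=
    Summable.of_norm_bounded (hg.mul_left (C * D)) fun k => hκb k t htt.le
  have sp : Summable fun k => Z k t * p k x :=
    Summable.of_norm_bounded hPs fun k => hPb k t htt.le x hx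
  refine ⟨?_, ?_, ?_⟩
  · -- SV v
    have h := gen hZ.1 v w (fun k => C' * D * (r' * K) ^ k) (fun k => C * D * (r * K) ^ k) ht₁
      (hg'.mul_left _) (hg.mul_left _) hF.dv
      (fun k s hs y hy => gb C' r' k _ _ hC' hr' (hb2 k s hs) (hF.bv k y hy))
      (fun k s hs y hy => gb C r k _ _ hC hr (hb k s hs) (hF.bw k y hy)) htt hx
      (Summable.of_norm_bounded (hg.mul_left (C * D)) fun k =>
        gb C r k _ _ hC hr (hb k t htt.le) (hF.bv k x hx))
    exact h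
  · -- SV w
    have hdw : ∀ k, ∀ y ∈ Ioo x₀ x₁, HasDerivAt (w k) (m y * (p k y - κ k)) y := by
      intro k y hy
      cases k with
      | zero => exact hF.dw0 y hy
      | succ k => exact hF.dw k y hy
    have h := gen hZ.1 w (fun k y => m y * (p k y - κ k)) (fun k => C' * D * (r' * K) ^ k)
      (fun k => M * (P k + C * D * (r * K) ^ k)) ht₁
      (hg'.mul_left _) ((hPs.add (hg.mul_left _)).mul_left _) hdw
      (fun k s hs y hy => gb C' r' k _ _ hC' hr' (hb2 k s hs) (hF.bw k y hy))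
      (fun k s hs y hy => by
        have e : Z k s * (m y * (p k y - κ k)) = m y * (Z k s * p k y - Z k s * κ k) := by ring
        rw [e, abs_mul]
        refine mul_le_mul (hm y hy) ?_ (abs_nonneg _) hM
        exact (abs_sub _ _).trans (add_le_add (hPb k s hs y hy) (hκb k s hs))) htt hx
      (Summable.of_norm_bounded (hg.mul_left (C * D)) fun k =>
        gb C r k _ _ hC hr (hb k t htt.le) (hF.bw k x hx))
    have e2 : (∑' k, Z k t * (m x * (p k x - κ k))) = m x * (SV v (sh Z) t x - SQ κ Z t) := by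
      have e3 : (fun k => Z k t * (m x * (p k x - κ k))) =
          fun k => m x * (Z k t * p k x - Z k t * κ k) := by
        funext k
        ring
      rw [e3, tsum_mul_left, sp.tsum_sub sκ]
      congr 2
      rw [sp.tsum_eq_zero_add, p0, mul_zero, zero_add]
      rfl
    rw [e2] at h
    exact h
  · -- SQ
    have key := hasDerivAt_tsum_of_isPreconnected
      (g := fun (k : ℕ) (s : ℝ) => Z k s * κ k) (g' := fun (k : ℕ) (s : ℝ) => Z (k + 1) s * κ k)
      (u := fun k => C' * D * (r' * K) ^ k) (t := Ioi (t / 2)) (y₀ := t) (y := t)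
      (hg'.mul_left _) isOpen_Ioi (convex_Ioi _).isPreconnected
      (fun k s hs => (hZ.1 k s (ht₁.trans hs)).mul_const (κ k))
      (fun k s hs => gb C' r' k _ _ hC' hr' (hb2 k s (le_of_lt hs)) (hF.bk k))
      htt sκ htt
    exact key

end Pool.Agent.Q162.CC.Sra
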